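import Mathlib

/-!
# Restricted digits: nonnegative elements of group algebras

Energy bounds in group algebras: a product of `2 m` nonnegative elements is bounded by the
`m`-fold energies of its factors.
-/

set_option autoImplicit false

namespace Pool.Agent.J6H48.RD

open Finset

/-- the real group algebra -/
abbrev Al (G : Type) [AddCommGroup G] : Type := AddMonoidAlgebra ℝ G

section
variable {G : Type} [AddCommGroup G]

/-- nonnegative coefficients -/
def NN (F : Al G) : Prop := ∀ g, 0 ≤ F.coeff g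

theorem coeff_mul' (F H : Al G) (s : G) :
    (F * H).coeff s = F.coeff.sum fun t r => r * H.coeff (s - t) := by
  classical
  rw [AddMonoidAlgebra.coeff_mul]
  refine Finsupp.sum_congr fun t _ => ?_
  have h1 : ∀ u : G, (t + u = s) ↔ (s - t = u) := fun u => by
    constructor
    · rintro rfl; abel
    · rintro rfl; abel
  rw [Finsupp.sum]
  simp only [h1]
  rw [Finset.sum_ite_eq]
  split_ifs with h
  · rfl
  · rw [Finsupp.notMem_support_iff.1 h, mul_zero]

theorem coeff_mul_fin [Fintype G] (F H : Al G) (s : G) :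
    (F * H).coeff s = ∑ t, F.coeff t * H.coeff (s - t) := by
  rw [coeff_mul', Finsupp.sum_fintype]
  intro i; rw [zero_mul]

theorem NN.mul {F H : Al G} (hF : NN F) (hH : NN H) : NN (F * H) := by
  intro s
  rw [coeff_mul', Finsupp.sum]
  exact Finset.sum_nonneg fun t _ => mul_nonneg (hF t) (hH _)

theorem NN.one : NN (1 : Al G) := by
  classical
  intro s
  rw [AddMonoidAlgebra.one_def, AddMonoidAlgebra.coeff_single, Finsupp.single_apply]
  split_ifs <;> norm_num

theorem NN.pow {F : Al G} (hF : NN F) (n : ℕ) : NN (F ^ n) := by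
  induction n with
  | zero => rw [pow_zero]; exact NN.one
  | succ n ih => rw [pow_succ]; exact ih.mul hF

theorem NN.prod {ι : Type} (s : Finset ι) {F : ι → Al G} (hF : ∀ i ∈ s, NN (F i)) :
    NN (∏ i ∈ s, F i) := by
  classical
  induction s using Finset.induction_on with
  | empty => rw [prod_empty]; exact NN.one
  | insert a s ha ih =>
    rw [prod_insert ha]
    exact (hF a (mem_insert_self _ _)).mul (ih fun i hi => hF i (mem_insert_of_mem hi))

theorem NN.add {F H : Al G} (hF : NN F) (hH : NN H) : NN (F + H) := by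
  intro s
  rw [AddMonoidAlgebra.coeff_add, Finsupp.add_apply]
  exact add_nonneg (hF s) (hH s)

theorem NN.sum {ι : Type} (s : Finset ι) {F : ι → Al G} (hF : ∀ i ∈ s, NN (F i)) :
    NN (∑ i ∈ s, F i) := by
  classical
  induction s using Finset.induction_on with
  | empty => rw [sum_empty]; intro g; simp
  | insert a s ha ih =>
    rw [sum_insert ha]
    exact (hF a (mem_insert_self _ _)).add (ih fun i hi => hF i (mem_insert_of_mem hi))

theorem NN.single {g : G} {r : ℝ} (hr : 0 ≤ r) : NN (AddMonoidAlgebra.single g r : Al G) := by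
  classical
  intro s
  rw [AddMonoidAlgebra.coeff_single, Finsupp.single_apply]
  split_ifs
  · exact hr
  · exact le_rfl

/-- the map induced by an additive homomorphism -/
noncomputable def mp {H : Type} [AddCommGroup H] (φ : G →+ H) : Al G →+* Al H :=
  AddMonoidAlgebra.mapDomainRingHom ℝ φ

theorem mp_single {H : Type} [AddCommGroup H] (φ : G →+ H) (g : G) (r : ℝ) :
    mp φ (AddMonoidAlgebra.single g r) = AddMonoidAlgebra.single (φ g) r := by
  unfold mp
  rw [AddMonoidAlgebra.mapDomainRingHom_apply, AddMonoidAlgebra.mapDomain_single]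

theorem mp_coeff {H : Type} [AddCommGroup H] [DecidableEq H] (φ : G →+ H) (F : Al G) (h : H) :
    (mp φ F).coeff h = F.coeff.sum fun g r => if φ g = h then r else 0 := by
  unfold mp
  rw [AddMonoidAlgebra.mapDomainRingHom_apply, AddMonoidAlgebra.mapDomain]
  show (Finsupp.mapDomain φ F.coeff) h = _
  rw [Finsupp.mapDomain, Finsupp.sum_apply]
  refine Finsupp.sum_congr fun g _ => ?_
  rw [Finsupp.single_apply]

theorem NN.mp {H : Type} [AddCommGroup H] {φ : G →+ H} {F : Al G} (hF : NN F) : NN (mp φ F) := by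
  classical
  intro h
  rw [mp_coeff, Finsupp.sum]
  refine Finset.sum_nonneg fun g _ => ?_
  split_ifs
  · exact hF g
  · exact le_rfl

/-- reflection -/
noncomputable def ng : Al G →+* Al G := mp (negAddMonoidHom : G →+ G)

theorem ng_coeff (F : Al G) (g : G) : (ng F).coeff g = F.coeff (-g) := by
  classical
  unfold ng
  rw [mp_coeff, Finsupp.sum]
  have h1 : ∀ t : G, ((negAddMonoidHom : G →+ G) t = g) ↔ (-g = t) := fun t => by
    rw [negAddMonoidHom_apply]
    constructor
    · rintro rfl; rw [neg_neg]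
    · rintro rfl; rw [neg_neg]
  simp only [h1]
  rw [Finset.sum_ite_eq]
  split_ifs with h
  · rfl
  · rw [Finsupp.notMem_support_iff.1 h]

theorem ext_coeff {F H : Al G} (h : ∀ g, F.coeff g = H.coeff g) : F = H := by
  apply AddMonoidAlgebra.coeff_injective
  exact Finsupp.ext h

theorem ng_ng (F : Al G) : ng (ng F) = F := by
  apply ext_coeff
  intro g
  rw [ng_coeff, ng_coeff, neg_neg]

theorem NN.ng {F : Al G} (hF : NN F) : NN (ng F) := hF.mp

theorem ng_self (F : Al G) : ng (F * ng F) = F * ng F := by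
  rw [map_mul, ng_ng, mul_comm]

/-- the total mass -/
noncomputable def ms : Al G →+* ℝ :=
  ((AddMonoidAlgebra.lift ℝ ℝ G (1 : Multiplicative G →* ℝ)) : Al G →ₐ[ℝ] ℝ).toRingHom

theorem ms_eq (F : Al G) : ms F = F.coeff.sum fun _ r => r := by
  unfold ms
  show (AddMonoidAlgebra.lift ℝ ℝ G (1 : Multiplicative G →* ℝ)) F = _
  rw [AddMonoidAlgebra.lift_apply]
  refine Finsupp.sum_congr fun g _ => ?_
  rw [MonoidHom.one_apply, smul_eq_mul, mul_one]

theorem ms_single (g : G) (r : ℝ) : ms (AddMonoidAlgebra.single g r : Al G) = r := by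
  rw [ms_eq, AddMonoidAlgebra.coeff_single, Finsupp.sum_single_index rfl]

theorem NN.coeff_le {F : Al G} (hF : NN F) (g : G) : F.coeff g ≤ ms F := by
  classical
  rw [ms_eq, Finsupp.sum]
  by_cases h : g ∈ F.coeff.support
  · exact Finset.single_le_sum (f := fun g => F.coeff g) (fun i _ => hF i) h
  · rw [Finsupp.notMem_support_iff.1 h]
    exact Finset.sum_nonneg fun i _ => hF i

theorem NN.ms_nonneg {F : Al G} (hF : NN F) : 0 ≤ ms F := (hF 0).trans (hF.coeff_le 0)

/-- product of something bounded with something of given mass -/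
theorem mul_coeff_le {F H : Al G} (hF : NN F) {a : ℝ} (hH : ∀ g, H.coeff g ≤ a) (s : G) :
    (F * H).coeff s ≤ ms F * a := by
  rw [coeff_mul', ms_eq, Finsupp.sum, Finsupp.sum, Finset.sum_mul]
  exact Finset.sum_le_sum fun t _ => mul_le_mul_of_nonneg_left (hH _) (hF t)

theorem sq_coeff [Fintype G] (F : Al G) : (F * ng F).coeff 0 = ∑ t, F.coeff t ^ 2 := by
  rw [coeff_mul_fin]
  refine Finset.sum_congr rfl fun t _ => ?_
  rw [ng_coeff, zero_sub, neg_neg, sq]

theorem cs [Fintype G] (F H : Al G) (s : G) :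
    ((F * H).coeff s) ^ 2 ≤ (F * ng F).coeff 0 * (H * ng H).coeff 0 := by
  rw [sq_coeff, sq_coeff, coeff_mul_fin]
  refine (Finset.sum_mul_sq_le_sq_mul_sq _ _ _).trans (le_of_eq ?_)
  congr 1
  exact Fintype.sum_equiv (Equiv.subLeft s) _ _ fun t => by rw [Equiv.subLeft_apply]

theorem hold [Fintype G] {ι : Type} [DecidableEq ι] {a : ℝ} (ha : 0 ≤ a) (r : ℕ) :
    ∀ (T : Finset ι) (F : ι → Al G), T.card = 2 ^ (r + 1) → (∀ j ∈ T, NN (F j)) →
      (∀ j ∈ T, ((F j * ng (F j)) ^ 2 ^ r).coeff 0 ≤ a) → ∀ s, (∏ j ∈ T, F j).coeff s ≤ a := by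
  induction r with
  | zero =>
    intro T F hT hN hE s
    obtain ⟨x, y, hxy, rfl⟩ := Finset.card_eq_two.1 (by simpa using hT)
    rw [prod_pair hxy]
    have h1 := cs (F x) (F y) s
    have h2 := hE x (by simp)
    have h3 := hE y (by simp)
    rw [pow_zero, pow_one] at h2 h3
    have h4 : 0 ≤ (F y * ng (F y)).coeff 0 := ((hN y (by simp)).mul (hN y (by simp)).ng) 0
    apply le_of_sq_le_sq _ ha
    calc ((F x * F y).coeff s) ^ 2 ≤ (F x * ng (F x)).coeff 0 * (F y * ng (F y)).coeff 0 := h1
      _ ≤ a * a := mul_le_mul h2 h3 h4 ha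
      _ = a ^ 2 := (sq a).symm
  | succ r ih =>
    intro T F hT hN hE s
    obtain ⟨T1, hT1, hc1⟩ := Finset.exists_subset_card_eq (s := T) (n := 2 ^ (r + 1)) (by
      rw [hT]; exact Nat.pow_le_pow_right (by norm_num) (by omega))
    have hc2 : (T \ T1).card = 2 ^ (r + 1) := by
      rw [card_sdiff_of_subset hT1, hT, hc1, pow_succ 2 (r + 1)]; omega
    rw [← prod_sdiff hT1, mul_comm]
    have key : ∀ U : Finset ι, U ⊆ T → U.card = 2 ^ (r + 1) →
        ((∏ j ∈ U, F j) * ng (∏ j ∈ U, F j)).coeff 0 ≤ a := by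
      intro U hU hc
      rw [map_prod, ← prod_mul_distrib]
      refine ih U (fun j => F j * ng (F j)) hc (fun j hj => (hN j (hU hj)).mul (hN j (hU hj)).ng)
        (fun j hj => ?_) 0
      rw [ng_self, ← sq, ← pow_mul, ← pow_succ']
      exact hE j (hU hj)
    have h2 := key T1 hT1 hc1
    have h3 := key (T \ T1) sdiff_subset hc2
    have h1 := cs (∏ j ∈ T1, F j) (∏ j ∈ T \ T1, F j) s
    have h5 : NN (∏ j ∈ T \ T1, F j) := NN.prod _ fun i hi => hN i (sdiff_subset hi)
    have h4 : 0 ≤ ((∏ j ∈ T \ T1, F j) * ng (∏ j ∈ T \ T1, F j)).coeff 0 := (h5.mul h5.ng) 0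
    apply le_of_sq_le_sq _ ha
    calc _ ≤ _ := h1
      _ ≤ a * a := mul_le_mul h2 h3 h4 ha
      _ = a ^ 2 := (sq a).symm

end

end Pool.Agent.J6H48.RD
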