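import Pool.Agent.J6H48.RD.A

/-!
# Restricted digits: carries, mixing modulo `q`, energy of a block of digits
-/

set_option autoImplicit false

namespace Pool.Agent.J6H48.RD

open Finset

theorem mp_mp {G H K : Type} [AddCommGroup G] [AddCommGroup H] [AddCommGroup K]
    (ψ : H →+ K) (φ : G →+ H) (F : Al G) : mp ψ (mp φ F) = mp (ψ.comp φ) F := by
  unfold mp
  rw [AddMonoidAlgebra.mapDomainRingHom_comp]
  rfl

theorem mp_id {G : Type} [AddCommGroup G] (F : Al G) : mp (AddMonoidHom.id G) F = F := by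
  unfold mp
  rw [AddMonoidAlgebra.mapDomainRingHom_id]
  rfl

theorem mp_ng {G H : Type} [AddCommGroup G] [AddCommGroup H] (φ : G →+ H) (F : Al G) :
    mp φ (ng F) = ng (mp φ F) := by
  unfold ng
  rw [mp_mp, mp_mp]
  have h : φ.comp (negAddMonoidHom : G →+ G) = (negAddMonoidHom : H →+ H).comp φ := by
    ext x
    simp
  rw [h]

theorem ms_mp {G H : Type} [AddCommGroup G] [AddCommGroup H] (φ : G →+ H) (F : Al G) :
    ms (mp φ F) = ms F := by
  have h : (ms.comp (mp φ) : Al G →+* ℝ) = ms := by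
    apply AddMonoidAlgebra.ringHom_ext
    · intro r
      rw [RingHom.comp_apply, mp_single, ms_single, ms_single]
    · intro g
      rw [RingHom.comp_apply, mp_single, ms_single, ms_single]
  exact congrArg (fun f : Al G →+* ℝ => f F) h

theorem mp_mul_coeff {G H : Type} [AddCommGroup G] [AddCommGroup H] (φ : G →+ H) (P : Al G)
    (F : Al H) (s : H) : (mp φ P * F).coeff s = P.coeff.sum fun g r => r * F.coeff (s - φ g) := by
  classical
  rw [coeff_mul']
  have h : (mp φ P).coeff = Finsupp.mapDomain φ P.coeff := rfl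
  rw [h, Finsupp.sum_mapDomain_index]
  · intro b; rw [zero_mul]
  · intro b r s; rw [add_mul]

/-- dilation -/
noncomputable def dil (c : ℤ) : Al ℤ →+* Al ℤ := mp (AddMonoidHom.mulLeft c)

/-- reduction modulo `N` -/
noncomputable def red (N : ℕ) : Al ℤ →+* Al (ZMod N) := mp (Int.castAddHom (ZMod N))

theorem dil_dil (c d : ℤ) (F : Al ℤ) : dil c (dil d F) = dil (c * d) F := by
  unfold dil
  rw [mp_mp]
  have h : (AddMonoidHom.mulLeft c).comp (AddMonoidHom.mulLeft d) = AddMonoidHom.mulLeft (c * d) := by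
    ext
    simp
  rw [h]

theorem dil_one (F : Al ℤ) : dil 1 F = F := by
  unfold dil
  have : AddMonoidHom.mulLeft (1 : ℤ) = AddMonoidHom.id ℤ := by ext; simp
  rw [this, mp_id]

/-- one step of the carry argument -/
theorem carry_step {q : ℕ} (hq : 0 < q) {h P : Al ℤ} (hh : NN h) {b p : ℝ} (hb0 : 0 ≤ p)
    (hb : ∀ s, (red q h).coeff s ≤ b) (hp : ∀ t, P.coeff t ≤ p) (t : ℤ) :
    (dil q P * h).coeff t ≤ p * b := by
  classical
  unfold dil
  rw [mp_mul_coeff, Finsupp.sum]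
  simp only [AddMonoidHom.coe_mulLeft]
  have h1 : ∑ a ∈ P.coeff.support, P.coeff a * h.coeff (t - q * a) ≤
      p * ∑ a ∈ P.coeff.support, h.coeff (t - q * a) := by
    rw [mul_sum]
    exact sum_le_sum fun a _ => mul_le_mul_of_nonneg_right (hp a) (hh _)
  refine h1.trans (mul_le_mul_of_nonneg_left (le_trans ?_ (hb (t : ZMod q))) hb0)
  unfold red
  rw [mp_coeff, Finsupp.sum, ← Finset.sum_filter]
  have hinj : Set.InjOn (fun a : ℤ => t - q * a) (P.coeff.support : Set ℤ) := by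
    intro x _ y _ hxy
    simp only at hxy
    have h2 : (q : ℤ) * x = q * y := by linarith
    exact mul_left_cancel₀ (by exact_mod_cast hq.ne') h2
  rw [← Finset.sum_image (f := fun v => h.coeff v) hinj]
  have h3 : ∑ v ∈ P.coeff.support.image (fun a : ℤ => t - q * a), h.coeff v =
      ∑ v ∈ (P.coeff.support.image (fun a : ℤ => t - q * a)).filter (fun v => v ∈ h.coeff.support),
        h.coeff v := by
    rw [Finset.sum_filter]
    refine sum_congr rfl fun v _ => ?_
    split_ifs with hv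
    · rfl
    · exact Finsupp.notMem_support_iff.1 hv
  rw [h3]
  refine Finset.sum_le_sum_of_subset_of_nonneg ?_ fun v _ _ => hh v
  intro v hv
  rw [mem_filter, mem_image] at hv
  obtain ⟨⟨a, _, rfl⟩, hv⟩ := hv
  rw [mem_filter]
  refine ⟨hv, ?_⟩
  rw [Int.coe_castAddHom]
  push_cast
  rw [ZMod.natCast_self, zero_mul, sub_zero]

theorem dil_prod (q : ℤ) (h : ℕ → Al ℤ) (L : ℕ) :
    ∏ i ∈ range (L + 1), dil (q ^ i) (h i) =
      dil q (∏ i ∈ range L, dil (q ^ i) (h (i + 1))) * h 0 := by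
  rw [prod_range_succ', pow_zero, dil_one, map_prod]
  congr 1
  refine prod_congr rfl fun i _ => ?_
  rw [dil_dil, pow_succ']

theorem NN.dil {c : ℤ} {F : Al ℤ} (hF : NN F) : NN (dil c F) := hF.mp

theorem carry {q : ℕ} (hq : 0 < q) (L : ℕ) : ∀ (b : ℕ → ℝ) (h : ℕ → Al ℤ), (∀ i, NN (h i)) →
    (∀ i s, (red q (h i)).coeff s ≤ b i) → ∀ t,
      (∏ i ∈ range L, dil ((q : ℤ) ^ i) (h i)).coeff t ≤ ∏ i ∈ range L, b i := by
  classical
  induction L with
  | zero =>
    intro b h hN hb t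
    rw [range_zero, prod_empty, prod_empty, AddMonoidAlgebra.one_def, AddMonoidAlgebra.coeff_single,
      Finsupp.single_apply]
    split_ifs <;> norm_num
  | succ L ih =>
    intro b h hN hb t
    rw [dil_prod, prod_range_succ']
    have hb0 : ∀ i, 0 ≤ b i := fun i => ((hN i).mp (φ := Int.castAddHom (ZMod q)) 0).trans (hb i 0)
    exact carry_step hq (hN 0)
      (prod_nonneg fun i _ => hb0 _) (hb 0) (ih (fun i => b (i + 1)) (fun i => h (i + 1))
        (fun i => hN _) (fun i => hb _)) t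

/-! ## Mixing modulo `q` -/

theorem coeff_one_zero {G : Type} [AddCommGroup G] : (1 : Al G).coeff 0 = 1 := by
  classical
  rw [AddMonoidAlgebra.one_def, AddMonoidAlgebra.coeff_single, Finsupp.single_apply, if_pos rfl]

theorem coeff_one_le {G : Type} [AddCommGroup G] (s : G) : (1 : Al G).coeff s ≤ 1 := by
  classical
  rw [AddMonoidAlgebra.one_def, AddMonoidAlgebra.coeff_single, Finsupp.single_apply]
  split_ifs <;> norm_num

theorem pow_ge {q : ℕ} [NeZero q] {g : Al (ZMod q)} (hg : NN g) {α : ℝ} (hα : 0 ≤ α) {c : ZMod q}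
    (h0 : α ≤ g.coeff 0) (hc : α ≤ g.coeff c) (n : ℕ) :
    ∀ j : ℕ, j ≤ n → α ^ n ≤ (g ^ n).coeff ((j : ZMod q) * c) := by
  induction n with
  | zero =>
    intro j hj
    have : j = 0 := by omega
    subst this
    rw [pow_zero, pow_zero, Nat.cast_zero, zero_mul, coeff_one_zero]
  | succ n ih =>
    intro j hj
    rw [pow_succ', pow_succ', coeff_mul_fin]
    have hnn : ∀ t, 0 ≤ g.coeff t * (g ^ n).coeff ((j : ZMod q) * c - t) := fun t =>
      mul_nonneg (hg t) ((hg.pow n) _)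
    rcases Nat.lt_or_ge n j with h | h
    · have hj1 : j = n + 1 := by omega
      subst hj1
      refine le_trans ?_ (Finset.single_le_sum (f := fun t => g.coeff t *
        (g ^ n).coeff (((n + 1 : ℕ) : ZMod q) * c - t)) (fun t _ => hnn t) (mem_univ c))
      have e : (((n + 1 : ℕ) : ZMod q) * c - c) = (n : ZMod q) * c := by push_cast; ring
      simp only [e]
      exact mul_le_mul hc (ih n le_rfl) (by positivity) (hg _)
    · refine le_trans ?_ (Finset.single_le_sum (f := fun t => g.coeff t *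
        (g ^ n).coeff ((j : ZMod q) * c - t)) (fun t _ => hnn t) (mem_univ 0))
      simp only [sub_zero]
      exact mul_le_mul h0 (ih j h) (by positivity) (hg _)

theorem pow_ge_all {q : ℕ} [NeZero q] {g : Al (ZMod q)} (hg : NN g) {α : ℝ} (hα : 0 ≤ α)
    {c : ZMod q} (hcu : IsUnit c) (h0 : α ≤ g.coeff 0) (hc : α ≤ g.coeff c) (s : ZMod q) :
    α ^ (q - 1) ≤ (g ^ (q - 1)).coeff s := by
  obtain ⟨u, rfl⟩ := hcu
  have h := pow_ge hg hα h0 hc (q - 1) (s * (u⁻¹ : (ZMod q)ˣ)).val (by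
    have := ZMod.val_lt (s * ((u⁻¹ : (ZMod q)ˣ) : ZMod q)); omega)
  rwa [ZMod.natCast_val, ZMod.cast_id, mul_assoc, Units.inv_mul, mul_one] at h

theorem ms_fin {q : ℕ} [NeZero q] (g : Al (ZMod q)) : ms g = ∑ t, g.coeff t := by
  rw [ms_eq, Finsupp.sum_fintype]
  intro i; rfl

theorem mix_step {q : ℕ} [NeZero q] {g P : Al (ZMod q)}
    (hg1 : ms g = 1) (hP1 : ms P = 1) {τ M : ℝ} (hτ : ∀ s, τ ≤ g.coeff s) (hM : ∀ s, P.coeff s ≤ M)
    (s : ZMod q) : (P * g).coeff s ≤ τ + (1 - q * τ) * M := by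
  rw [coeff_mul_fin]
  have h1 : ∀ t, P.coeff t * g.coeff (s - t) ≤ P.coeff t * τ + M * (g.coeff (s - t) - τ) := by
    intro t
    have h2 : 0 ≤ (M - P.coeff t) * (g.coeff (s - t) - τ) :=
      mul_nonneg (by linarith [hM t]) (by linarith [hτ (s - t)])
    nlinarith
  refine (Finset.sum_le_sum fun t _ => h1 t).trans (le_of_eq ?_)
  rw [sum_add_distrib, ← sum_mul, ← ms_fin, hP1, ← mul_sum, sum_sub_distrib, sum_const, card_univ,
    ZMod.card, nsmul_eq_mul]
  have e : ∑ t, g.coeff (s - t) = ∑ t, g.coeff t :=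
    Fintype.sum_equiv (Equiv.subLeft s) _ _ fun t => by rw [Equiv.subLeft_apply]
  rw [e, ← ms_fin, hg1]
  ring

theorem mix_pow {q : ℕ} [NeZero q] {g : Al (ZMod q)} (hg1 : ms g = 1) {τ : ℝ}
    (hτ : ∀ s, τ ≤ g.coeff s) (n : ℕ) :
    ∀ s, (g ^ n).coeff s ≤ 1 / q + (1 - q * τ) ^ n := by
  have hq0 : (0 : ℝ) < q := by exact_mod_cast Nat.pos_of_ne_zero (NeZero.ne q)
  induction n with
  | zero =>
    intro s
    rw [pow_zero, pow_zero]
    refine (coeff_one_le s).trans ?_
    have : 0 < 1 / (q : ℝ) := by positivity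
    linarith
  | succ n ih =>
    intro s
    have hpn : ms (g ^ n) = 1 := by rw [map_pow, hg1, one_pow]
    rw [pow_succ]
    refine (mix_step hg1 hpn hτ ih s).trans (le_of_eq ?_)
    rw [pow_succ]
    field_simp
    ring

theorem mix_all {q : ℕ} [NeZero q] {g : Al (ZMod q)} (hg : NN g) (hg1 : ms g = 1) {α : ℝ}
    (hα : 0 ≤ α) {c : ZMod q} (hcu : IsUnit c) (h0 : α ≤ g.coeff 0) (hc : α ≤ g.coeff c)
    (m : ℕ) (s : ZMod q) :
    (g ^ m).coeff s ≤ 1 / q + (1 - q * α ^ (q - 1)) ^ (m / (q - 1)) := by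
  have e : g ^ m = g ^ (m % (q - 1)) * (g ^ (q - 1)) ^ (m / (q - 1)) := by
    rw [← pow_mul, ← pow_add, Nat.mod_add_div]
  rw [e]
  have h1 := mix_pow (g := g ^ (q - 1)) (by rw [map_pow, hg1, one_pow])
    (pow_ge_all hg hα hcu h0 hc) (m / (q - 1))
  have h2 := mul_coeff_le (hg.pow (m % (q - 1))) h1 s
  rwa [map_pow, hg1, one_pow, one_mul] at h2

end Pool.Agent.J6H48.RD
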