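import Pool.Agent.J6H48.RD.B

/-!
# Restricted digits: flatness modulo `N`
-/

set_option autoImplicit false

namespace Pool.Agent.J6H48.RD

open Finset

/-- the uniform distribution on a set of digits -/
noncomputable def fD (S : Finset ℕ) : Al ℤ :=
  ∑ d ∈ S, AddMonoidAlgebra.single (d : ℤ) (1 / (S.card : ℝ))

/-- `S` is a set of base `q` digits, two of which have a difference prime to `q` -/
def Good (q : ℕ) (S : Finset ℕ) : Prop :=
  S ⊆ range q ∧ ∃ a ∈ S, ∃ b ∈ S, a < b ∧ Nat.Coprime (b - a) q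

theorem fD_nn (S : Finset ℕ) : NN (fD S) := NN.sum _ fun _ _ => NN.single (by positivity)

theorem ms_fD {S : Finset ℕ} (h : S.Nonempty) : ms (fD S) = 1 := by
  have h0 : (S.card : ℝ) ≠ 0 := by exact_mod_cast h.card_pos.ne'
  unfold fD
  rw [map_sum]
  simp only [ms_single]
  rw [sum_const, nsmul_eq_mul]
  field_simp

theorem Good.nonempty {q : ℕ} {S : Finset ℕ} (h : Good q S) : S.Nonempty := by
  obtain ⟨_, a, ha, _⟩ := h
  exact ⟨a, ha⟩

theorem Good.card_le {q : ℕ} {S : Finset ℕ} (h : Good q S) : S.card ≤ q := by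
  have := card_le_card h.1
  rwa [card_range] at this

theorem red_fD_ge {q : ℕ} {S : Finset ℕ} (h : Good q S) {a : ℕ} (ha : a ∈ S) :
    1 / (q : ℝ) ≤ (red q (fD S)).coeff (a : ZMod q) := by
  classical
  have hc : (0 : ℝ) < S.card := by exact_mod_cast h.nonempty.card_pos
  have hcq : (S.card : ℝ) ≤ q := by exact_mod_cast h.card_le
  unfold fD red
  rw [map_sum, AddMonoidAlgebra.coeff_sum, Finsupp.finsetSum_apply]
  simp only [mp_single]
  refine (one_div_le_one_div_of_le hc hcq).trans ?_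
  refine le_trans (le_of_eq ?_) (Finset.single_le_sum (f := fun i : ℕ => (AddMonoidAlgebra.single
    ((Int.castAddHom (ZMod q)) (i : ℤ)) (1 / (S.card : ℝ)) : Al (ZMod q)).coeff (a : ZMod q))
    (fun i _ => NN.single (by positivity) _) ha)
  simp only [AddMonoidAlgebra.coeff_single, Int.coe_castAddHom, Int.cast_natCast,
    Finsupp.single_eq_same]

/-- the bound for the residues of the `m`-fold convolution -/
noncomputable def bnd (q m : ℕ) : ℝ :=
  1 / q + (1 - q * (1 / (q : ℝ) ^ 2) ^ (q - 1)) ^ (m / (q - 1))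

theorem res_bound {q : ℕ} (hq : 0 < q) {S : Finset ℕ} (h : Good q S) (m : ℕ) (s : ZMod q) :
    (red q ((fD S * ng (fD S)) ^ m)).coeff s ≤ bnd q m := by
  have : NeZero q := ⟨hq.ne'⟩
  have hq0 : (0 : ℝ) < q := by exact_mod_cast hq
  set F := red q (fD S) with hF
  have hFn : NN F := (fD_nn S).mp
  have e : red q ((fD S * ng (fD S)) ^ m) = (F * ng F) ^ m := by
    rw [map_pow, map_mul]
    unfold red
    rw [mp_ng]
    rfl
  rw [e]
  have hms : ms F = 1 := by
    rw [hF]; unfold red; rw [ms_mp, ms_fD h.nonempty]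
  have hmsn : ms (ng F) = 1 := by unfold ng; rw [ms_mp, hms]
  obtain ⟨_, a, ha, b, hb, hab, hco⟩ := h
  have h' : Good q S := ⟨by assumption, a, ha, b, hb, hab, hco⟩
  have hFa := red_fD_ge h' ha
  have hFb := red_fD_ge h' hb
  rw [← hF] at hFa hFb
  have hsq : (1 : ℝ) / q ^ 2 = 1 / q * (1 / q) := by field_simp
  have hcoef : ∀ c : ZMod q, (F * ng F).coeff c = ∑ t, F.coeff t * F.coeff (t - c) := by
    intro c
    rw [coeff_mul_fin]
    refine sum_congr rfl fun t _ => ?_
    rw [ng_coeff, neg_sub]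
  refine mix_all (hFn.mul hFn.ng) (by rw [map_mul, hms, hmsn, one_mul]) (by positivity)
    (c := (b : ZMod q) - a) ?_ ?_ ?_ m s
  · have e2 : (b : ZMod q) - a = ((b - a : ℕ) : ZMod q) := by rw [Nat.cast_sub hab.le]
    rw [e2]
    exact (ZMod.isUnit_iff_coprime _ _).2 hco
  · rw [hcoef, hsq]
    refine le_trans ?_ (Finset.single_le_sum (f := fun t => F.coeff t * F.coeff (t - 0))
      (fun t _ => mul_nonneg (hFn t) (hFn _)) (mem_univ (a : ZMod q)))
    simp only [sub_zero]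
    exact mul_le_mul hFa hFa (by positivity) (hFn _)
  · rw [hcoef, hsq]
    refine le_trans ?_ (Finset.single_le_sum (f := fun t => F.coeff t * F.coeff (t - ((b : ZMod q) - a)))
      (fun t _ => mul_nonneg (hFn t) (hFn _)) (mem_univ (b : ZMod q)))
    have e3 : (b : ZMod q) - (b - a) = a := by ring
    simp only [e3]
    exact mul_le_mul hFb hFa (by positivity) (hFn _)

/-! ## Supports -/

/-- support in `[-a, a]` -/
def Sp (F : Al ℤ) (a : ℤ) : Prop := ∀ g, F.coeff g ≠ 0 → |g| ≤ a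

theorem Sp.mul {F H : Al ℤ} {a b : ℤ} (hF : Sp F a) (hH : Sp H b) : Sp (F * H) (a + b) := by
  intro s hs
  rw [coeff_mul', Finsupp.sum] at hs
  obtain ⟨t, ht, h⟩ := exists_ne_zero_of_sum_ne_zero hs
  have h1 := hF t (left_ne_zero_of_mul h)
  have h2 := hH _ (right_ne_zero_of_mul h)
  have h3 : |s| ≤ |t| + |s - t| := by
    have := abs_add_le t (s - t)
    rwa [add_sub_cancel] at this
  linarith

theorem Sp.one : Sp 1 0 := by
  classical
  intro s hs
  rw [AddMonoidAlgebra.one_def, AddMonoidAlgebra.coeff_single, Finsupp.single_apply] at hs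
  split_ifs at hs with h
  · rw [← h, abs_zero]
  · exact (hs rfl).elim

theorem Sp.pow {F : Al ℤ} {a : ℤ} (hF : Sp F a) (n : ℕ) : Sp (F ^ n) (n * a) := by
  induction n with
  | zero => rw [pow_zero, Nat.cast_zero, zero_mul]; exact Sp.one
  | succ n ih =>
    rw [pow_succ]
    have := ih.mul hF
    push_cast
    rwa [add_mul, one_mul]

theorem Sp.prod (L : ℕ) {F : ℕ → Al ℤ} {a : ℕ → ℤ} (hF : ∀ i, Sp (F i) (a i)) :
    Sp (∏ i ∈ range L, F i) (∑ i ∈ range L, a i) := by
  induction L with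
  | zero => rw [range_zero, prod_empty, sum_empty]; exact Sp.one
  | succ L ih => rw [prod_range_succ, sum_range_succ]; exact ih.mul (hF L)

theorem Sp.dil {F : Al ℤ} {a c : ℤ} (hF : Sp F a) : Sp (dil c F) (|c| * a) := by
  classical
  intro s hs
  unfold RD.dil at hs
  rw [mp_coeff, Finsupp.sum] at hs
  obtain ⟨t, ht, h⟩ := exists_ne_zero_of_sum_ne_zero hs
  split_ifs at h with h1
  · rw [AddMonoidHom.coe_mulLeft] at h1
    rw [← h1, abs_mul]
    exact mul_le_mul_of_nonneg_left (hF t h) (abs_nonneg _)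
  · exact (h rfl).elim

theorem Sp.ng {F : Al ℤ} {a : ℤ} (hF : Sp F a) : Sp (ng F) a := by
  intro s hs
  rw [ng_coeff] at hs
  rw [← abs_neg]
  exact hF _ hs

theorem Sp.fD {q : ℕ} {S : Finset ℕ} (h : S ⊆ range q) : Sp (fD S) ((q : ℤ) - 1) := by
  classical
  intro s hs
  unfold RD.fD at hs
  rw [AddMonoidAlgebra.coeff_sum, Finsupp.finsetSum_apply] at hs
  obtain ⟨d, hd, h1⟩ := exists_ne_zero_of_sum_ne_zero hs
  rw [AddMonoidAlgebra.coeff_single, Finsupp.single_apply] at h1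
  split_ifs at h1 with h2
  · have := mem_range.1 (h hd)
    rw [← h2, abs_of_nonneg (by positivity)]
    omega
  · exact (h1 rfl).elim

/-- the distribution of the integers with digits in the given sets -/
noncomputable def PP (q : ℕ) (D : ℕ → Finset ℕ) (L : ℕ) : Al ℤ :=
  ∏ i ∈ range L, dil ((q : ℤ) ^ i) (fD (D i))

theorem PP_nn (q : ℕ) (D : ℕ → Finset ℕ) (L : ℕ) : NN (PP q D L) :=
  NN.prod _ fun _ _ => (fD_nn _).dil

theorem PP_sp {q : ℕ} {D : ℕ → Finset ℕ} (hD : ∀ i, D i ⊆ range q) (L : ℕ) :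
    Sp (PP q D L) ((q : ℤ) ^ L - 1) := by
  have h := Sp.prod L (fun i => (Sp.fD (hD i)).dil (c := (q : ℤ) ^ i))
  have e : ∑ i ∈ range L, |(q : ℤ) ^ i| * ((q : ℤ) - 1) = (q : ℤ) ^ L - 1 := by
    rw [← sum_mul]
    have : ∀ i ∈ range L, |(q : ℤ) ^ i| = (q : ℤ) ^ i := fun i _ => abs_of_nonneg (by positivity)
    rw [sum_congr rfl this]
    exact geom_sum_mul _ _
  rw [e] at h
  exact h

theorem dil_ng (c : ℤ) (F : Al ℤ) : dil c (ng F) = ng (dil c F) := mp_ng _ _

theorem PP_energy {q : ℕ} (hq : 0 < q) {D : ℕ → Finset ℕ} (hD : ∀ i, Good q (D i)) (L m : ℕ) :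
    ((PP q D L * ng (PP q D L)) ^ m).coeff 0 ≤ bnd q m ^ L := by
  have e : (PP q D L * ng (PP q D L)) ^ m =
      ∏ i ∈ range L, dil ((q : ℤ) ^ i) ((fD (D i) * ng (fD (D i))) ^ m) := by
    unfold PP
    rw [map_prod, ← prod_mul_distrib, ← prod_pow]
    refine prod_congr rfl fun i _ => ?_
    rw [map_pow, map_mul, dil_ng]
  rw [e]
  have h := carry hq L (fun _ => bnd q m) (fun i => (fD (D i) * ng (fD (D i))) ^ m)
    (fun i => ((fD_nn _).mul (fD_nn _).ng).pow m) (fun i s => res_bound hq (hD i) m s) 0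
  rwa [prod_const, card_range] at h

theorem red_dil_coeff {N : ℕ} {c : ℤ} (hc : IsCoprime c (N : ℤ)) {W : Al ℤ} {a : ℤ} (hW : Sp W a)
    (ha : a < N) : (red N (dil c W)).coeff 0 = W.coeff 0 := by
  classical
  unfold red dil
  rw [mp_mp, mp_coeff, Finsupp.sum]
  have h1 : ∀ g ∈ W.coeff.support, (if ((Int.castAddHom (ZMod N)).comp (AddMonoidHom.mulLeft c)) g = 0
      then W.coeff g else 0) = if g = 0 then W.coeff g else 0 := by
    intro g hg
    have hg0 : W.coeff g ≠ 0 := Finsupp.mem_support_iff.1 hg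
    have hga := hW g hg0
    have h2 : ((Int.castAddHom (ZMod N)).comp (AddMonoidHom.mulLeft c)) g = 0 ↔ g = 0 := by
      rw [AddMonoidHom.comp_apply, AddMonoidHom.coe_mulLeft, Int.coe_castAddHom,
        ZMod.intCast_zmod_eq_zero_iff_dvd]
      constructor
      · intro h
        have h3 : (N : ℤ) ∣ g := hc.symm.dvd_of_dvd_mul_left h
        exact Int.eq_zero_of_abs_lt_dvd h3 (by linarith)
      · rintro rfl
        rw [mul_zero]; exact dvd_zero _
    by_cases hg : g = 0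
    · rw [if_pos (h2.2 hg), if_pos hg]
    · rw [if_neg (fun h => hg (h2.1 h)), if_neg hg]
  rw [sum_congr rfl h1]
  rw [Finset.sum_ite_eq' W.coeff.support 0]
  split_ifs with h
  · rfl
  · rw [Finsupp.notMem_support_iff.1 h]

theorem prod_blocks {M : Type} [CommMonoid M] (g : ℕ → M) (L J : ℕ) :
    ∏ i ∈ range (J * L), g i = ∏ j ∈ range J, ∏ i ∈ range L, g (j * L + i) := by
  induction J with
  | zero => rw [zero_mul, range_zero, prod_empty, prod_empty]
  | succ J ih => rw [add_mul, one_mul, prod_range_add, ih, prod_range_succ]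

theorem bnd_nonneg {q : ℕ} (hq : 0 < q) {S : Finset ℕ} (h : Good q S) (m : ℕ) : 0 ≤ bnd q m :=
  le_trans ((((fD_nn S).mul (fD_nn S).ng).pow m).mp (φ := Int.castAddHom (ZMod q)) 0)
    (res_bound hq h m 0)

theorem ms_dil_fD {c : ℤ} {S : Finset ℕ} (h : S.Nonempty) : ms (dil c (fD S)) = 1 := by
  unfold dil
  rw [ms_mp, ms_fD h]

/-- **Flatness.** -/
theorem flat {q : ℕ} (hq : 0 < q) {N : ℕ} [NeZero N] (hco : Nat.Coprime q N) {D : ℕ → Finset ℕ}
    (hD : ∀ i, Good q (D i)) {r L M : ℕ} (hN : 2 * 2 ^ r * q ^ L ≤ N) (hM : 2 * 2 ^ r * L ≤ M)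
    (s : ZMod N) : (red N (PP q D M)).coeff s ≤ bnd q (2 ^ r) ^ L := by
  classical
  have hb0 : 0 ≤ bnd q (2 ^ r) := bnd_nonneg hq (hD 0) _
  have hJ : 2 * 2 ^ r = 2 ^ (r + 1) := by rw [pow_succ, mul_comm]
  obtain ⟨u, rfl⟩ : ∃ u, M = 2 ^ (r + 1) * L + u := ⟨M - 2 ^ (r + 1) * L, by rw [← hJ]; omega⟩
  have hcoZ : ∀ j : ℕ, IsCoprime ((q : ℤ) ^ j) (N : ℤ) := fun j =>
    IsCoprime.pow_left (Nat.isCoprime_iff_coprime.2 hco)
  set F : ℕ → Al (ZMod N) := fun j => red N (dil ((q : ℤ) ^ (j * L)) (PP q (fun i => D (j * L + i)) L))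
    with hF
  have hFn : ∀ j, NN (F j) := fun j => (PP_nn _ _ _).dil.mp
  have hE : ∀ j, ((F j * ng (F j)) ^ 2 ^ r).coeff 0 ≤ bnd q (2 ^ r) ^ L := by
    intro j
    set P := PP q (fun i => D (j * L + i)) L with hP
    have e : (F j * ng (F j)) ^ 2 ^ r = red N (dil ((q : ℤ) ^ (j * L)) ((P * ng P) ^ 2 ^ r)) := by
      rw [map_pow, map_pow, map_mul, map_mul, dil_ng]
      congr 1
      simp only [hF]
      congr 1
      exact (mp_ng _ _).symm
    rw [e]
    have hs1 : Sp P ((q : ℤ) ^ L - 1) := PP_sp (fun i => (hD _).1) L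
    have hs2 := (hs1.mul hs1.ng).pow (2 ^ r)
    rw [red_dil_coeff (hcoZ _) hs2 ?_]
    · exact PP_energy hq (fun i => hD _) L (2 ^ r)
    · have h1 : (2 : ℤ) * 2 ^ r * q ^ L ≤ N := by exact_mod_cast hN
      have h2 : (0 : ℤ) < 2 ^ r := by positivity
      push_cast
      nlinarith
  have hprod : ∏ j ∈ range (2 ^ (r + 1)), F j = red N (PP q D (2 ^ (r + 1) * L)) := by
    unfold PP
    rw [prod_blocks, map_prod]
    refine prod_congr rfl fun j _ => ?_
    simp only [hF]
    unfold PP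
    congr 1
    rw [map_prod]
    refine prod_congr rfl fun i _ => ?_
    rw [dil_dil, pow_add]
  have hmain := hold (pow_nonneg hb0 L) r (range (2 ^ (r + 1))) F (card_range _)
    (fun j _ => hFn j) (fun j _ => hE j)
  rw [hprod] at hmain
  have esplit : PP q D (2 ^ (r + 1) * L + u) =
      (∏ i ∈ range u, dil ((q : ℤ) ^ (2 ^ (r + 1) * L + i)) (fD (D (2 ^ (r + 1) * L + i)))) *
        PP q D (2 ^ (r + 1) * L) := by
    unfold PP
    rw [prod_range_add, mul_comm]
  rw [esplit, map_mul]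
  have hR : NN (red N (∏ i ∈ range u, dil ((q : ℤ) ^ (2 ^ (r + 1) * L + i))
      (fD (D (2 ^ (r + 1) * L + i))))) := NN.mp (NN.prod _ fun _ _ => (fD_nn _).dil)
  have h1 := mul_coeff_le hR hmain s
  have h2 : ms (red N (∏ i ∈ range u, dil ((q : ℤ) ^ (2 ^ (r + 1) * L + i))
      (fD (D (2 ^ (r + 1) * L + i))))) = 1 := by
    unfold red
    rw [ms_mp, map_prod]
    exact prod_eq_one fun i _ => ms_dil_fD (hD _).nonempty
  rwa [h2, one_mul] at h1

/-! ## The integers with restricted digits -/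

/-- the integers `n < q ^ M` whose base `q` digits are in the given sets -/
def Res (q : ℕ) (D : ℕ → Finset ℕ) (M : ℕ) : Finset ℕ :=
  (range (q ^ M)).filter fun n => ∀ i < M, n / q ^ i % q ∈ D i

theorem mem_Res {q : ℕ} {D : ℕ → Finset ℕ} {M n : ℕ} :
    n ∈ Res q D M ↔ n < q ^ M ∧ ∀ i < M, n / q ^ i % q ∈ D i := by
  unfold Res
  rw [mem_filter, mem_range]

theorem sum_Res_succ {q : ℕ} (hq : 0 < q) {D : ℕ → Finset ℕ} (hD : ∀ i, D i ⊆ range q) (M : ℕ)
    {X : Type} [AddCommMonoid X] (f : ℕ → X) :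
    ∑ n ∈ Res q D (M + 1), f n = ∑ n ∈ Res q (fun i => D (i + 1)) M, ∑ d ∈ D 0, f (q * n + d) := by
  rw [← Finset.sum_product']
  refine Finset.sum_nbij' (fun n => (n / q, n % q)) (fun p => q * p.1 + p.2) ?_ ?_ ?_ ?_ ?_
  · intro n hn
    rw [mem_Res] at hn
    rw [mem_product, mem_Res]
    refine ⟨⟨?_, fun i hi => ?_⟩, ?_⟩
    · rw [Nat.div_lt_iff_lt_mul hq, ← pow_succ]; exact hn.1
    · have := hn.2 (i + 1) (by omega)
      rwa [pow_succ', ← Nat.div_div_eq_div_mul] at this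
    · have := hn.2 0 (by omega)
      rwa [pow_zero, Nat.div_one] at this
  · rintro ⟨n, d⟩ hp
    rw [mem_product, mem_Res] at hp
    obtain ⟨⟨h1, h2⟩, h3⟩ := hp
    simp only at h1 h2 h3 ⊢
    have hd : d < q := mem_range.1 (hD 0 h3)
    have e1 : (q * n + d) / q = n := by
      rw [Nat.mul_add_div hq, Nat.div_eq_of_lt hd, add_zero]
    rw [mem_Res]
    refine ⟨?_, fun i hi => ?_⟩
    · have h4 : q * (n + 1) ≤ q * q ^ M := Nat.mul_le_mul_left q h1
      rw [pow_succ']
      calc q * n + d < q * n + q := by omega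
        _ = q * (n + 1) := by ring
        _ ≤ _ := h4
    · rcases i with _ | i
      · rw [pow_zero, Nat.div_one, Nat.mul_add_mod, Nat.mod_eq_of_lt hd]; exact h3
      · rw [pow_succ', ← Nat.div_div_eq_div_mul, e1]
        exact h2 i (by omega)
  · intro n hn
    exact Nat.div_add_mod n q
  · rintro ⟨n, d⟩ hp
    rw [mem_product] at hp
    have hd : d < q := mem_range.1 (hD 0 hp.2)
    simp only
    rw [Nat.mul_add_div hq, Nat.div_eq_of_lt hd, add_zero, Nat.mul_add_mod, Nat.mod_eq_of_lt hd]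
  · intro n hn
    simp only
    rw [Nat.div_add_mod]

theorem Res_zero (q : ℕ) (D : ℕ → Finset ℕ) : Res q D 0 = {0} := by
  ext n
  rw [mem_Res, mem_singleton, pow_zero]
  constructor
  · rintro ⟨h, _⟩; omega
  · rintro rfl; exact ⟨by norm_num, fun i hi => absurd hi (Nat.not_lt_zero _)⟩

theorem card_Res {q : ℕ} (hq : 0 < q) (M : ℕ) : ∀ {D : ℕ → Finset ℕ}, (∀ i, D i ⊆ range q) →
    (Res q D M).card = ∏ i ∈ range M, (D i).card := by
  induction M with
  | zero => intro D _; rw [Res_zero, card_singleton, range_zero, prod_empty]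
  | succ M ih =>
    intro D hD
    rw [card_eq_sum_ones, sum_Res_succ hq hD]
    simp only [sum_const, smul_eq_mul, mul_one]
    rw [ih (fun i => hD (i + 1)), prod_range_succ']

theorem PP_eq {q : ℕ} (hq : 0 < q) (M : ℕ) : ∀ {D : ℕ → Finset ℕ}, (∀ i, D i ⊆ range q) →
    PP q D M = ∑ n ∈ Res q D M, AddMonoidAlgebra.single (n : ℤ) (1 / ∏ i ∈ range M, ((D i).card : ℝ)) := by
  induction M with
  | zero =>
    intro D _
    unfold PP
    rw [Res_zero, range_zero, prod_empty, prod_empty, sum_singleton, AddMonoidAlgebra.one_def]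
    norm_num
  | succ M ih =>
    intro D hD
    rw [sum_Res_succ hq hD]
    unfold PP
    rw [dil_prod]
    have h := ih (fun i => hD (i + 1))
    unfold PP at h
    rw [h, map_sum, sum_mul]
    refine sum_congr rfl fun n _ => ?_
    unfold fD
    rw [mul_sum]
    refine sum_congr rfl fun d _ => ?_
    unfold dil
    rw [mp_single, AddMonoidAlgebra.single_mul_single, prod_range_succ', one_div_mul_one_div,
      show (AddMonoidHom.mulLeft (q : ℤ)) (n : ℤ) + (d : ℤ) = ((q * n + d : ℕ) : ℤ) by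
        rw [AddMonoidHom.coe_mulLeft]; push_cast; ring]

open Classical in
/-- **Flatness, counting form.** -/
theorem flat_count {q : ℕ} (hq : 0 < q) {N : ℕ} [NeZero N] (hco : Nat.Coprime q N)
    {D : ℕ → Finset ℕ} (hD : ∀ i, Good q (D i)) {r L M : ℕ} (hN : 2 * 2 ^ r * q ^ L ≤ N)
    (hM : 2 * 2 ^ r * L ≤ M) (s : ZMod N) :
    (((Res q D M).filter fun n : ℕ => (n : ZMod N) = s).card : ℝ) ≤
      bnd q (2 ^ r) ^ L * (Res q D M).card := by
  have h := flat hq hco hD hN hM s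
  rw [PP_eq hq M (fun i => (hD i).1)] at h
  have hpos : (0 : ℝ) < ∏ i ∈ range M, ((D i).card : ℝ) :=
    prod_pos fun i _ => by exact_mod_cast (hD i).nonempty.card_pos
  have hcard : ((Res q D M).card : ℝ) = ∏ i ∈ range M, ((D i).card : ℝ) := by
    rw [card_Res hq M (fun i => (hD i).1)]; push_cast; rfl
  unfold red at h
  rw [map_sum, AddMonoidAlgebra.coeff_sum, Finsupp.finsetSum_apply] at h
  simp only [mp_single, AddMonoidAlgebra.coeff_single, Finsupp.single_apply, Int.coe_castAddHom,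
    Int.cast_natCast] at h
  rw [← Finset.sum_filter, sum_const, nsmul_eq_mul, mul_one_div, div_le_iff₀ hpos] at h
  rw [hcard]
  exact h

end Pool.Agent.J6H48.RD
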