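import Pool.Agent.J6H48.RD.C
import Pool.Agent.Y927.CP.F

/-!
# Restricted digits: the parities of the first terms of the Collatz trajectories
-/

set_option autoImplicit false

namespace Pool.Agent.J6H48.RD

open Finset Filter Topology Pool.Agent.Y927

/-- `q` times the bound for the residues -/
noncomputable def qb (q r : ℕ) : ℝ := q * bnd q (2 ^ r)

theorem tau_pos {q : ℕ} (hq : 0 < q) : (0 : ℝ) < q * (1 / (q : ℝ) ^ 2) ^ (q - 1) := by
  have : (0 : ℝ) < q := by exact_mod_cast hq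
  positivity

theorem tau_le {q : ℕ} (hq : 2 ≤ q) : q * (1 / (q : ℝ) ^ 2) ^ (q - 1) ≤ 1 := by
  have h0 : (2 : ℝ) ≤ q := by exact_mod_cast hq
  have h1 : (1 / (q : ℝ) ^ 2) ^ (q - 1) ≤ (1 / (q : ℝ) ^ 2) ^ 1 := by
    apply pow_le_pow_of_le_one (by positivity)
    · rw [div_le_one (by positivity)]; nlinarith
    · omega
  rw [pow_one] at h1
  calc (q : ℝ) * (1 / (q : ℝ) ^ 2) ^ (q - 1) ≤ q * (1 / (q : ℝ) ^ 2) :=
        mul_le_mul_of_nonneg_left h1 (by positivity)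
    _ = 1 / q := by field_simp
    _ ≤ 1 := by rw [div_le_one (by positivity)]; linarith

theorem qb_eq {q : ℕ} (hq : 0 < q) (r : ℕ) :
    qb q r = 1 + q * (1 - q * (1 / (q : ℝ) ^ 2) ^ (q - 1)) ^ (2 ^ r / (q - 1)) := by
  have : (0 : ℝ) < q := by exact_mod_cast hq
  unfold qb bnd
  field_simp

theorem one_le_qb {q : ℕ} (hq : 2 ≤ q) (r : ℕ) : 1 ≤ qb q r := by
  rw [qb_eq (by omega)]
  have h1 : 0 ≤ (1 - q * (1 / (q : ℝ) ^ 2) ^ (q - 1)) ^ (2 ^ r / (q - 1)) :=
    pow_nonneg (by linarith [tau_le hq]) _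
  have : (0 : ℝ) ≤ q := by positivity
  nlinarith [mul_nonneg this h1]

theorem exists_r {q : ℕ} (hq : 2 ≤ q) {η : ℝ} (hη : 0 < η) : ∃ r : ℕ, 1 ≤ r ∧ qb q r ≤ 1 + η := by
  set ρ : ℝ := 1 - q * (1 / (q : ℝ) ^ 2) ^ (q - 1) with hρ
  have hq0 : (0 : ℝ) < q := by exact_mod_cast (by omega : 0 < q)
  have h0 : 0 ≤ ρ := by rw [hρ]; linarith [tau_le hq]
  have h1 : ρ < 1 := by rw [hρ]; linarith [tau_pos (show 0 < q by omega)]
  obtain ⟨n, hn⟩ := exists_pow_lt_of_lt_one (show 0 < η / q by positivity) h1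
  refine ⟨(q - 1) * n + 1, by omega, ?_⟩
  rw [qb_eq (by omega), ← hρ]
  have h2 : n ≤ 2 ^ ((q - 1) * n + 1) / (q - 1) := by
    rw [Nat.le_div_iff_mul_le (by omega)]
    have := (Nat.lt_two_pow_self (n := (q - 1) * n + 1)).le
    calc n * (q - 1) = (q - 1) * n := mul_comm _ _
      _ ≤ (q - 1) * n + 1 := by omega
      _ ≤ _ := this
  have h3 : ρ ^ (2 ^ ((q - 1) * n + 1) / (q - 1)) ≤ ρ ^ n := pow_le_pow_of_le_one h0 h1.le h2
  have h4 : q * ρ ^ (2 ^ ((q - 1) * n + 1) / (q - 1)) ≤ q * (η / q) :=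
    mul_le_mul_of_nonneg_left (h3.trans hn.le) hq0.le
  rw [mul_div_cancel₀ _ hq0.ne'] at h4
  linarith

open Classical in
/-- flatness modulo `2 ^ k` -/
theorem flat_two {q : ℕ} (hq : 2 ≤ q) (hodd : q % 2 = 1) {D : ℕ → Finset ℕ}
    (hD : ∀ i, Good q (D i)) {r k M : ℕ} (hM : 2 ^ (r + 1) * k ≤ M) (s : ZMod (2 ^ k)) :
    (((Res q D M).filter fun n : ℕ => (n : ZMod (2 ^ k)) = s).card : ℝ) ≤
      2 ^ (r + 1) * q * qb q r ^ k / 2 ^ k * (Res q D M).card := by
  have hq0 : (0 : ℝ) < q := by exact_mod_cast (by omega : 0 < q)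
  have hq1 : (1 : ℝ) ≤ q := by exact_mod_cast (by omega : 1 ≤ q)
  have hqb := one_le_qb hq r
  have hc0 : (0 : ℝ) ≤ (Res q D M).card := Nat.cast_nonneg _
  rcases Nat.lt_or_ge (2 ^ k) (2 * 2 ^ r) with h | h
  · have h1 : (((Res q D M).filter fun n : ℕ => (n : ZMod (2 ^ k)) = s).card : ℝ) ≤
        1 * (Res q D M).card := by
      rw [one_mul]; exact_mod_cast card_filter_le _ _
    refine h1.trans (mul_le_mul_of_nonneg_right ?_ hc0)
    rw [le_div_iff₀ (by positivity), one_mul]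
    have h2 : (2 : ℝ) ^ k ≤ 2 ^ (r + 1) := by
      have : 2 ^ k ≤ 2 ^ (r + 1) := by rw [pow_succ]; omega
      exact_mod_cast this
    have h3 : (1 : ℝ) ≤ qb q r ^ k := one_le_pow₀ hqb
    have h4 : (0 : ℝ) < 2 ^ (r + 1) := by positivity
    calc (2 : ℝ) ^ k ≤ 2 ^ (r + 1) := h2
      _ = 2 ^ (r + 1) * 1 * 1 := by ring
      _ ≤ 2 ^ (r + 1) * q * qb q r ^ k := by gcongr
  · -- the largest `L`
    have hex : ∃ L, ¬ 2 * 2 ^ r * q ^ (L + 1) ≤ 2 ^ k := by
      refine ⟨k, fun hcon => ?_⟩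
      have h1 : 2 ^ (k + 1) ≤ q ^ (k + 1) := Nat.pow_le_pow_left hq _
      have h2 : 1 ≤ 2 ^ r := Nat.one_le_two_pow
      have h3 : 2 ^ k < 2 ^ (k + 1) := Nat.pow_lt_pow_right (by norm_num) (by omega)
      have h4 : 1 * q ^ (k + 1) ≤ 2 * 2 ^ r * q ^ (k + 1) := Nat.mul_le_mul_right _ (by omega)
      omega
    classical
    set L := Nat.find hex with hL
    have hL1 : ¬ 2 * 2 ^ r * q ^ (L + 1) ≤ 2 ^ k := Nat.find_spec hex
    have hL2 : 2 * 2 ^ r * q ^ L ≤ 2 ^ k := by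
      rcases Nat.eq_zero_or_pos L with h0 | h0
      · rw [h0, pow_zero, mul_one]; exact h
      · have := Nat.find_min hex (m := L - 1) (by omega)
        rw [not_not, Nat.sub_add_cancel h0] at this
        exact this
    have hLk : L ≤ k := by
      by_contra hcon
      push Not at hcon
      have h1 : 2 ^ L ≤ q ^ L := Nat.pow_le_pow_left hq _
      have h2 : 2 ^ k < 2 ^ L := Nat.pow_lt_pow_right (by norm_num) hcon
      have h3 : 1 ≤ 2 ^ r := Nat.one_le_two_pow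
      have h4 : 1 * q ^ L ≤ 2 * 2 ^ r * q ^ L := Nat.mul_le_mul_right _ (by omega)
      omega
    have hco : Nat.Coprime q (2 ^ k) := by
      apply Nat.Coprime.pow_right
      exact Nat.coprime_two_right.2 (Nat.odd_iff.2 hodd)
    have hLM : 2 * 2 ^ r * L ≤ M := by
      refine le_trans ?_ hM
      rw [pow_succ, mul_comm (2 ^ r) 2]
      exact Nat.mul_le_mul_left _ hLk
    have h1 := flat_count (by omega) hco hD hL2 hLM s
    refine h1.trans (mul_le_mul_of_nonneg_right ?_ hc0)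
    have h2 : bnd q (2 ^ r) = qb q r / q := by unfold qb; field_simp
    rw [h2, div_pow, div_le_div_iff₀ (by positivity) (by positivity)]
    have h3 : ((2 : ℝ) ^ k) ≤ 2 ^ (r + 1) * q * q ^ L := by
      have : 2 ^ k ≤ 2 * 2 ^ r * q ^ (L + 1) := by omega
      have h4 : ((2 : ℝ) ^ k) ≤ 2 * 2 ^ r * q ^ (L + 1) := by exact_mod_cast this
      calc ((2 : ℝ) ^ k) ≤ 2 * 2 ^ r * q ^ (L + 1) := h4
        _ = _ := by rw [pow_succ, pow_succ]; ring
    have h5 : qb q r ^ L ≤ qb q r ^ k := pow_le_pow_right₀ hqb hLk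
    calc qb q r ^ L * 2 ^ k ≤ qb q r ^ k * (2 ^ (r + 1) * q * q ^ L) :=
          mul_le_mul h5 h3 (by positivity) (by positivity)
      _ = _ := by ring

open Classical in
/-- few restricted integers have an unbalanced parity vector -/
theorem bad_count {q : ℕ} (hq : 2 ≤ q) (hodd : q % 2 = 1) {D : ℕ → Finset ℕ}
    (hD : ∀ i, Good q (D i)) {r k M : ℕ} (hM : 2 ^ (r + 1) * k ≤ M) (hk : 1 ≤ k) {lam : ℝ}
    (hl : 0 ≤ lam) :
    (((Res q D M).filter fun n : ℕ => CP.pv k n ∈ CP.Bad k lam).card : ℝ) ≤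
      2 ^ (r + 1) * q * qb q r ^ k * (2 * (k + 1) * Real.exp (-(lam ^ 2 / (2 * k)))) *
        (Res q D M).card := by
  set B := (Res q D M).filter fun n : ℕ => CP.pv k n ∈ CP.Bad k lam with hB
  have h1 : (B.card : ℝ) = ∑ v ∈ CP.Bad k lam, ((B.filter fun n => CP.pv k n = v).card : ℝ) := by
    have := Finset.card_eq_sum_card_fiberwise (s := B) (t := CP.Bad k lam) (f := CP.pv k)
      (fun n hn => (mem_filter.1 hn).2)
    rw [this]; push_cast; rfl
  have hqb := one_le_qb hq r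
  set K : ℝ := 2 ^ (r + 1) * q * qb q r ^ k / 2 ^ k * (Res q D M).card with hK
  have hK0 : 0 ≤ K := by rw [hK]; positivity
  have h2 : ∀ v ∈ CP.Bad k lam, ((B.filter fun n => CP.pv k n = v).card : ℝ) ≤ K := by
    intro v _
    rcases (B.filter fun n => CP.pv k n = v).eq_empty_or_nonempty with he | ⟨n0, hn0⟩
    · rw [he, card_empty, Nat.cast_zero]; exact hK0
    · have hsub : (B.filter fun n => CP.pv k n = v) ⊆
          (Res q D M).filter fun n : ℕ => (n : ZMod (2 ^ k)) = (n0 : ZMod (2 ^ k)) := by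
        intro n hn
        rw [mem_filter] at hn hn0 ⊢
        refine ⟨(mem_filter.1 hn.1).1, ?_⟩
        have := CP.modEq_of_pv (hn.2.trans hn0.2.symm)
        exact (ZMod.natCast_eq_natCast_iff _ _ _).2 this
      have h3 := card_le_card hsub
      refine le_trans (by exact_mod_cast h3) (flat_two hq hodd hD hM _)
  rw [h1]
  refine (sum_le_sum h2).trans ?_
  rw [sum_const, nsmul_eq_mul]
  have h4 := CP.card_Bad hk hl
  refine (mul_le_mul_of_nonneg_right h4 hK0).trans (le_of_eq ?_)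
  rw [hK]
  have : (2 : ℝ) ^ k ≠ 0 := by positivity
  field_simp

end Pool.Agent.J6H48.RD
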